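import Mathlib
import Pool.Agent.H89.CF.Main

/-!
# MP_464721_al: half of Q1 for every odd prime

Q1 asks for an infinite finitely generated residually finite `p`-group whose subgroups of infinite
index are all cyclic.  Such a group satisfies (a) every finite subgroup is cyclic, and (b) every
finitely generated subgroup of infinite index is finite.  Groups with (b) are known
(Ershov and Jaikin-Zapirain).  We construct, for every odd prime `p`, groups with (a); in them
every locally finite and every solvable subgroup, and the centralizer of every nontrivial element,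
is finite and cyclic, and only (b) is missing for Q1 (last clause).
-/

set_option autoImplicit false

namespace Pool.Agent.Results.MP_464721_al.CyclicFinite

open Pool.Agent.H89.CF Pool.Agent.RFA

/-- every element has order a power of `p` -/
def IsTors (p : ℕ) (Γ : Type) [Group Γ] : Prop := ∀ g : Γ, ∃ k : ℕ, g ^ p ^ k = 1

/-- residually a finite `p`-group -/
def ResP (p : ℕ) (Γ : Type) [Group Γ] : Prop :=
  ∀ g : Γ, g ≠ 1 → ∃ N : Subgroup Γ, N.Normal ∧ (∃ k : ℕ, N.index = p ^ k) ∧ g ∉ N

/-- every finitely generated subgroup of `H` is finite -/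
def LocallyFinite {Γ : Type} [Group Γ] (H : Subgroup Γ) : Prop :=
  ∀ K : Subgroup Γ, K ≤ H → K.FG → Finite K

theorem result (p : ℕ) (hp : p.Prime) (hp2 : p ≠ 2) :
    ∃ (Γ : Type) (_ : Group Γ),
      Infinite Γ ∧ (∃ a b c : Γ, Subgroup.closure ({a, b, c} : Set Γ) = ⊤) ∧
      IsTors p Γ ∧ ResP p Γ ∧
      (∀ H : Subgroup Γ, (Finite H ↔ IsCyclic H) ∧ (LocallyFinite H ↔ IsCyclic H) ∧
        (Group.IsSolvable H ↔ IsCyclic H)) ∧
      (∀ g : Γ, g ≠ 1 → Finite (Subgroup.centralizer ({g} : Set Γ)) ∧
        IsCyclic (Subgroup.centralizer ({g} : Set Γ))) ∧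
      ((∀ H : Subgroup Γ, H.index = 0 → IsCyclic H) ↔
        (∀ H : Subgroup Γ, H.index = 0 → H.FG → Finite H)) := by
  have hpf : Fact p.Prime := ⟨hp⟩
  obtain ⟨Γ, iΓ, f, hf, hinf, htors, hres, hr⟩ := exists_group p hp2
  have hsep : ∀ g : Γ, g ≠ 1 → ∃ N : Subgroup Γ, N.Normal ∧ N.index ≠ 0 ∧ g ∉ N := by
    intro g hg
    obtain ⟨N, h1, ⟨k, hk⟩, h3⟩ := hres g hg
    exact ⟨N, h1, by rw [hk]; exact pow_ne_zero _ hp.ne_zero, h3⟩
  have hcf : ∀ H : Subgroup Γ, IsCyclic H → Finite H := by
    intro H hH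
    obtain ⟨w, hw⟩ := hH
    obtain ⟨k, hk⟩ := htors (w : Γ)
    have h2 : IsOfFinOrder w := isOfFinOrder_iff_pow_eq_one.2
      ⟨p ^ k, pow_pos hp.pos k, Subtype.ext (by simpa using hk)⟩
    have h3 : (Subgroup.zpowers w : Set H) = Set.univ := Set.eq_univ_of_forall hw
    have h4 : ((Subgroup.zpowers w : Subgroup H) : Set H).Finite := h2.finite_zpowers
    rw [h3] at h4
    exact Set.finite_univ_iff.1 h4
  have hle : ∀ K H : Subgroup Γ, K ≤ H → Finite H → Finite K := by
    intro K H hKH hH
    exact Finite.of_injective (Subgroup.inclusion hKH) (Subgroup.inclusion_injective hKH)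
  refine ⟨Γ, iΓ, hinf, ?_, htors, hres, ?_, ?_, ?_⟩
  · refine ⟨f (FreeGroup.of 0), f (FreeGroup.of 1), f (FreeGroup.of 2), ?_⟩
    have h1 : Subgroup.closure (Set.range (FreeGroup.of : Fin 3 → FreeGroup (Fin 3))) = ⊤ :=
      FreeGroup.closure_range_of (Fin 3)
    have h2 : (Subgroup.closure (Set.range (FreeGroup.of : Fin 3 → FreeGroup (Fin 3)))).map f
        = ⊤ := by
      rw [h1, ← MonoidHom.range_eq_map, MonoidHom.range_eq_top]
      exact hf
    rw [MonoidHom.map_closure] at h2
    rw [← h2]
    congr 1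
    ext x
    simp only [Set.mem_insert_iff, Set.mem_singleton_iff, Set.mem_image, Set.mem_range,
      exists_exists_eq_and]
    constructor
    · rintro (rfl | rfl | rfl)
      · exact ⟨0, rfl⟩
      · exact ⟨1, rfl⟩
      · exact ⟨2, rfl⟩
    · rintro ⟨i, rfl⟩
      fin_cases i <;> simp
  · intro H
    refine ⟨⟨fun hH => finite_cyclic hp2 htors hr H, hcf H⟩, ⟨fun hH =>
      (locFin_cyclic hp2 htors hsep hr H hH).2, fun hH K hKH _ => hle K H hKH (hcf H hH)⟩,
      ⟨fun hH => (locFin_cyclic hp2 htors hsep hr H (solvable_locFin htors H)).2, fun hH => ?_⟩⟩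
    have hc := hH.isMulCommutative.is_comm.comm
    exact Group.isSolvable_of_comm hc
  · intro g hg
    exact centralizer_cyclic hp2 htors hsep hr g hg
  · constructor
    · intro h H hH _
      exact hcf H (h H hH)
    · intro h H hH
      refine (locFin_cyclic hp2 htors hsep hr H ?_).2
      intro K hKH hfg
      refine h K ?_ hfg
      have := Subgroup.index_dvd_of_le hKH
      rw [hH] at this
      exact Nat.eq_zero_of_zero_dvd this

end Pool.Agent.Results.MP_464721_al.CyclicFinite
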